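import Pool.Agent.X143.PC.Final

/-!
# A proper permutation class whose constant `c_A` is smaller than its growth rate `s_A`

For the class `A` of all direct sums of permutations of length at most `k`, one has
`s_A ≥ k/e`, while `c_A ≤ 0.36 k` for large `k` (the random permutation has about `k` points in
each square of area `k` and a chain of disjoint boxes cannot do much better than squares).
-/

namespace Pool.Agent.Results.MP_cd0eb5_co.DirectSums

open Pool.Agent.X143.PC

/-- There is a nonempty set `B` of permutations such that the proper class `Av(B)` has
`c_A < s_A`. -/
theorem result : ∃ B : Set P, B.Nonempty ∧ cA (Av B) < sA (Av B) := by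
  refine ⟨{β | β ∉ blk (100 * 100 ^ 2)}, compl_nonempty _, ?_⟩
  rw [Av_compl]
  exact cA_lt_sA (a := 100) le_rfl

end Pool.Agent.Results.MP_cd0eb5_co.DirectSums
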